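import Pool.Agent.H601R2.PP
import Pool.Agent.H634R2.Clique
import Pool.Agent.H673R2.Search

/-!
# Common tools for the red-blue cut problems
-/

set_option autoImplicit false

namespace Pool.Agent.TH660.RB

open Pool.Agent.NPC Pool.Agent.NPC.H634R2 Pool.Agent.H673R2

/-- every language in `NP` reduces to a problem restricted to valid instances, so the language of
the valid yes-instances is hard -/
theorem npHardP_and {α : Type} [TEnc α] {Pr P : α → Prop} (h : NPHardOn Pr P) :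
    NPHardP (fun a => Pr a ∧ P a) := by
  intro L hL
  obtain ⟨f, hf, hpr, hfL⟩ := h L hL
  refine ⟨fun x => bits (f x), hf, fun x => ?_⟩
  rw [bits_mem_lang, hfL x]
  exact ⟨fun h => ⟨hpr x, h⟩, fun h => h.2⟩

theorem sz_filter_le {β : Type} [TEnc β] (p : β → Bool) (l : List β) : sz (l.filter p) ≤ sz l := by
  induction l with
  | nil => simp
  | cons a l ih =>
    rw [List.filter_cons]
    split
    · simp only [sz_list_cons]; omega
    · simp only [sz_list_cons]; omega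

theorem pairwise_iff_zipIdx {β : Type} (l : List β) (R : β → β → Prop) :
    (∀ x ∈ l.zipIdx, ∀ y ∈ l.zipIdx, ¬ x.2 < y.2 ∨ R x.1 y.1) ↔ l.Pairwise R := by
  rw [List.pairwise_iff_getElem]
  constructor
  · intro h i j hi hj hij
    have h1 := h (l[i], i) (by
      rw [List.mem_zipIdx_iff_getElem?]; simp [hi]) (l[j], j) (by
      rw [List.mem_zipIdx_iff_getElem?]; simp [hj])
    rcases h1 with h1 | h1
    · exact absurd hij h1
    · exact h1
  · rintro h ⟨x, i⟩ hx ⟨y, j⟩ hy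
    rw [List.mem_zipIdx_iff_getElem?] at hx hy
    simp only at hx hy ⊢
    by_cases hij : i < j
    · right
      obtain ⟨hi, hi'⟩ := List.getElem?_eq_some_iff.1 hx
      obtain ⟨hj, hj'⟩ := List.getElem?_eq_some_iff.1 hy
      have := h i j hi hj hij
      rwa [hi', hj'] at this
    · exact Or.inl hij

theorem pp_nodup {α β : Type} [TEnc α] [TEnc β] {l : α → List β} (hl : Poly l) :
    PP (fun a => (l a).Nodup) := by
  refine PP.congr (p := fun a => ∀ x ∈ (l a).zipIdx, ∀ y ∈ (l a).zipIdx, ¬ x.2 < y.2 ∨ x.1 ≠ y.1)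
    ?_ (fun a => pairwise_iff_zipIdx _ _)
  refine PP.ball (r := fun a (x : β × ℕ) => ∀ y ∈ (l a).zipIdx, ¬ x.2 < y.2 ∨ x.1 ≠ y.1)
    (Poly.zipIdx hl) ?_
  refine PP.ball (l := fun z : α × (β × ℕ) => (l z.1).zipIdx)
    (r := fun (z : α × (β × ℕ)) (y : β × ℕ) => ¬ z.2.2 < y.2 ∨ z.2.1 ≠ y.1)
    (Poly.zipIdx (hl.comp (Poly.fst Poly.id))) ?_
  exact PP.or (PP.not (PP.lt (by fun_prop) (by fun_prop))) (PP.ne (by fun_prop) (by fun_prop))

/-- Pairs without repetition as unordered pairs, in terms of ordered pairs. -/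
theorem nodup_sym_iff (E : List (ℕ × ℕ)) (hne : ∀ e ∈ E, e.1 ≠ e.2) :
    (E.map (fun e => s(e.1, e.2))).Nodup ↔
      E.Nodup ∧ ∀ e ∈ E, (e.2, e.1) ∉ E := by
  constructor
  · intro h
    refine ⟨List.Nodup.of_map _ h, fun e he he' => ?_⟩
    have h1 := List.inj_on_of_nodup_map h he he' (Sym2.eq_swap)
    have h2 : e.1 = e.2 := congrArg Prod.fst h1
    exact hne e he h2
  · rintro ⟨h1, h2⟩
    refine List.Nodup.map_on ?_ h1
    rintro ⟨a, b⟩ h ⟨c, d⟩ h' heq
    simp only [Sym2.eq_iff] at heq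
    rcases heq with ⟨rfl, rfl⟩ | ⟨rfl, rfl⟩
    · rfl
    · exact absurd h' (h2 _ h)

theorem isGraph_iff (V : List ℕ) (E : List (ℕ × ℕ)) : IsGraph V E ↔
    V.Nodup ∧ (∀ e ∈ E, e.1 ∈ V ∧ e.2 ∈ V ∧ e.1 ≠ e.2) ∧ E.Nodup ∧ ∀ e ∈ E, (e.2, e.1) ∉ E := by
  unfold IsGraph
  constructor
  · rintro ⟨h1, h2, h3⟩
    exact ⟨h1, h2, (nodup_sym_iff E fun e he => (h2 e he).2.2).1 h3⟩
  · rintro ⟨h1, h2, h3⟩
    exact ⟨h1, h2, (nodup_sym_iff E fun e he => (h2 e he).2.2).2 h3⟩

theorem pp_isGraph {α : Type} [TEnc α] {V : α → List ℕ} {E : α → List (ℕ × ℕ)} (hV : Poly V)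
    (hE : Poly E) : PP (fun a => IsGraph (V a) (E a)) := by
  refine PP.congr ?_ (fun a => (isGraph_iff (V a) (E a)).symm)
  refine PP.and (pp_nodup hV) (PP.and ?_ (PP.and (pp_nodup hE) ?_))
  · refine PP.ball (r := fun a (e : ℕ × ℕ) => e.1 ∈ V a ∧ e.2 ∈ V a ∧ e.1 ≠ e.2) hE ?_
    exact PP.and (PP.mem (by fun_prop) (by fun_prop)) (PP.and (PP.mem (by fun_prop) (by fun_prop))
      (PP.ne (by fun_prop) (by fun_prop)))
  · refine PP.ball (r := fun a (e : ℕ × ℕ) => (e.2, e.1) ∉ E a) hE ?_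
    exact PP.not (PP.mem (by fun_prop) (by fun_prop))

/-! ### Counting edges inside a set of vertices -/

/-- both ends in `K` -/
def good (K : Finset ℕ) (e : ℕ × ℕ) : Bool := decide (e.1 ∈ K) && decide (e.2 ∈ K)

theorem toFinset_card {V : List ℕ} {E : List (ℕ × ℕ)} (hG : IsGraph V E) (K : Finset ℕ) :
    ((E.filter (good K)).map (fun e => s(e.1, e.2))).toFinset.card = E.countP (good K) := by
  rw [List.toFinset_card_of_nodup, List.length_map, List.countP_eq_length_filter]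
  exact hG.2.2.sublist (List.Sublist.map _ List.filter_sublist)

theorem toFinset_sub {V : List ℕ} {E : List (ℕ × ℕ)} (hG : IsGraph V E) (K : Finset ℕ) :
    ((E.filter (good K)).map (fun e => s(e.1, e.2))).toFinset ⊆ K.offDiag.image (Function.uncurry Sym2.mk) := by
  intro z hz
  simp only [List.mem_toFinset, List.mem_map, List.mem_filter] at hz
  obtain ⟨e, ⟨he, hg⟩, rfl⟩ := hz
  simp only [good, Bool.and_eq_true, decide_eq_true_eq] at hg
  rw [Finset.mem_image]
  exact ⟨(e.1, e.2), by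
    rw [Finset.mem_offDiag]; exact ⟨hg.1, hg.2, (hG.2.1 e he).2.2⟩, rfl⟩

theorem countP_good_le {V : List ℕ} {E : List (ℕ × ℕ)} (hG : IsGraph V E) (K : Finset ℕ) :
    E.countP (good K) ≤ K.card.choose 2 := by
  rw [← toFinset_card hG K, ← Sym2.card_image_offDiag K]
  exact Finset.card_le_card (toFinset_sub hG K)

theorem clique_of_countP {V : List ℕ} {E : List (ℕ × ℕ)} (hG : IsGraph V E) (K : Finset ℕ)
    (h : K.card.choose 2 ≤ E.countP (good K)) :
    ∀ u ∈ K, ∀ v ∈ K, u ≠ v → (u, v) ∈ E ∨ (v, u) ∈ E := by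
  rw [← toFinset_card hG K, ← Sym2.card_image_offDiag K] at h
  have heq := Finset.eq_of_subset_of_card_le (toFinset_sub hG K) h
  intro u hu v hv huv
  have h1 : s(u, v) ∈ K.offDiag.image (Function.uncurry Sym2.mk) := by
    rw [Finset.mem_image]
    exact ⟨(u, v), by rw [Finset.mem_offDiag]; exact ⟨hu, hv, huv⟩, rfl⟩
  rw [← heq] at h1
  simp only [List.mem_toFinset, List.mem_map, List.mem_filter] at h1
  obtain ⟨e, ⟨he, _⟩, h2⟩ := h1
  rw [Sym2.eq_iff] at h2
  rcases h2 with ⟨h3, h4⟩ | ⟨h3, h4⟩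
  · left; rw [← h3, ← h4]; exact he
  · right; rw [← h3, ← h4]; exact he

theorem countP_good_ge {V : List ℕ} {E : List (ℕ × ℕ)} (hG : IsGraph V E) (K : Finset ℕ)
    (h : ∀ u ∈ K, ∀ v ∈ K, u ≠ v → (u, v) ∈ E ∨ (v, u) ∈ E) :
    K.card.choose 2 ≤ E.countP (good K) := by
  rw [← toFinset_card hG K, ← Sym2.card_image_offDiag K]
  apply Finset.card_le_card
  intro z hz
  rw [Finset.mem_image] at hz
  obtain ⟨⟨u, v⟩, huv, rfl⟩ := hz
  rw [Finset.mem_offDiag] at huv
  obtain ⟨hu, hv, hne⟩ := huv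
  simp only at hu hv hne
  simp only [List.mem_toFinset, List.mem_map, List.mem_filter]
  rcases h u hu v hv hne with h1 | h1
  · exact ⟨(u, v), ⟨h1, by simp [good, hu, hv]⟩, rfl⟩
  · exact ⟨(v, u), ⟨h1, by simp [good, hu, hv]⟩, Sym2.eq_swap⟩

/-- If the number of edges inside `K` is at least `k (k - 1) / 2` and `|K| ≤ k` then `K` is a clique
with `k` vertices. -/
theorem clique_of_dense {V : List ℕ} {E : List (ℕ × ℕ)} (hG : IsGraph V E) (K : Finset ℕ) {k : ℕ}
    (hk : 2 ≤ k) (hK : K.card ≤ k) (h : k * (k - 1) ≤ 2 * E.countP (good K)) :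
    K.card = k ∧ ∀ u ∈ K, ∀ v ∈ K, u ≠ v → (u, v) ∈ E ∨ (v, u) ∈ E := by
  have h1 := countP_good_le hG K
  have h2 : k.choose 2 ≤ E.countP (good K) := by
    rw [Nat.choose_two_right]
    omega
  have h3 : K.card = k := by
    by_contra hne
    have hlt : K.card < k := lt_of_le_of_ne hK hne
    have h4 : K.card.choose 2 ≤ (k - 1).choose 2 := Nat.choose_le_choose 2 (by omega)
    have h5 : k.choose 2 = (k - 1).choose 2 + (k - 1) := by
      obtain ⟨j, rfl⟩ : ∃ j, k = j + 1 := ⟨k - 1, by omega⟩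
      rw [Nat.add_sub_cancel, Nat.choose_succ_succ' j 1, Nat.choose_one_right, add_comm]
    omega
  refine ⟨h3, clique_of_countP hG K ?_⟩
  rw [h3]
  exact h2

theorem two_mul_countP_of_clique {V : List ℕ} {E : List (ℕ × ℕ)} (hG : IsGraph V E)
    (K : Finset ℕ) (h : ∀ u ∈ K, ∀ v ∈ K, u ≠ v → (u, v) ∈ E ∨ (v, u) ∈ E) :
    K.card * (K.card - 1) ≤ 2 * E.countP (good K) := by
  have h1 := countP_good_ge hG K h
  rw [Nat.choose_two_right] at h1
  have h2 : Even (K.card * (K.card - 1)) := Nat.even_mul_pred_self _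
  obtain ⟨j, hj⟩ := h2
  omega

theorem countP_zipIdx {α : Type} (l : List α) (p : α → Bool) :
    l.zipIdx.countP (fun x => p x.1) = l.countP p := by
  conv_rhs => rw [← List.zipIdx_map_fst 0 l]
  rw [List.countP_map]
  rfl

end Pool.Agent.TH660.RB
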